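import Pool.Agent.W314.BA.Stm

/-!
Project BA, part DSP: a ball is dominated by the product of two balls of half the radius.
-/

set_option autoImplicit false
open MeasureTheory Set Filter Topology Real
open scoped ENNReal NNReal

namespace Pool.Agent.W605.BA.DSP
open Pool.Agent.W314.BA
open Pool.Agent.W745 (NN FR HM kk dg)

lemma hh_half {w : G} {x : ℝ} (_hx : 1 ≤ x) (hw : w ∈ Bx x) :
    ∃ w1 w2 : G, w = w1 * w2 ∧ hh w1 ≤ √x ∧ hh w2 ≤ √x := by
  obtain ⟨θ₁, s, θ₂, hs, rfl⟩ := cartan w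
  have h1 : hh (kk θ₁ * dg s * kk θ₂) = Real.cosh (2 * s) := by
    rw [hh_mul_kk, hh_kk_mul, hh_dg]
  have h2 : Real.cosh (2 * s) ≤ x := by rw [← h1]; exact hw
  have h3 : Real.cosh s ≤ √x := by
    apply Real.le_sqrt_of_sq_le
    have h4 := Real.cosh_two_mul s
    have h5 := Real.sinh_sq s
    nlinarith
  refine ⟨kk θ₁ * dg (s / 2), dg (s / 2) * kk θ₂, ?_, ?_, ?_⟩
  · have : dg s = dg (s / 2) * dg (s / 2) := by
      rw [← Pool.Agent.W745.dg_add]; congr 1; ring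
    rw [this]; simp only [mul_assoc]
  · rw [hh_kk_mul, hh_dg]
    have : 2 * (s / 2) = s := by ring
    rw [this]; exact h3
  · rw [hh_mul_kk, hh_dg]
    have : 2 * (s / 2) = s := by ring
    rw [this]; exact h3

lemma slice_meas (w : G) (y : ℝ) : MeasurableSet ((fun h : G => w * h⁻¹) ⁻¹' Bx y) := by
  exact (continuous_const.mul continuous_id.inv).measurable (Bx_meas y)

lemma big_slice {w : G} {x : ℝ} (hx : 1 ≤ x) (hw : w ∈ Bx x) :
    1 ≤ hm (Bx (4 * √x) ∩ (fun h : G => w * h⁻¹) ⁻¹' Bx (4 * √x)) := by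
  obtain ⟨w1, w2, rfl, h1, h2⟩ := hh_half hx hw
  have hs : (0 : ℝ) ≤ √x := Real.sqrt_nonneg x
  have hm2 : hm (Bx 2) = 1 := by
    rw [hm_Bx (by norm_num)]
    norm_num
  rw [← hm2, ← (hm_mul_right w2).measure_preimage
    ((Bx_meas _).inter (slice_meas _ _)).nullMeasurableSet]
  apply measure_mono
  intro u hu
  have hu' : hh u ≤ 2 := hu
  have hu0 := one_le_hh u
  refine ⟨?_, ?_⟩
  · show hh (u * w2) ≤ 4 * √x
    have h3 := hh_mul_le u w2
    have h4 := one_le_hh w2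
    nlinarith
  · show hh (w1 * w2 * (u * w2)⁻¹) ≤ 4 * √x
    have h5 : w1 * w2 * (u * w2)⁻¹ = w1 * u⁻¹ := by
      rw [mul_inv_rev, mul_assoc, mul_inv_cancel_left]
    rw [h5]
    have h3 := hh_mul_le w1 u⁻¹
    rw [hh_inv] at h3
    have h4 := one_le_hh w1
    nlinarith

lemma key {x : ℝ} (hx : 1 ≤ x) (φ : G → ℝ≥0∞) (hφ : Measurable φ) :
    ∫⁻ g in Bx x, φ g ∂hm ≤
      ∫⁻ h in Bx (4 * √x), ∫⁻ g in Bx (4 * √x), φ (g * h) ∂hm ∂hm := by
  have e1 : ∀ h : G, ∫⁻ g in Bx (4 * √x), φ (g * h) ∂hm =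
      ∫⁻ w, (Bx (4 * √x)).indicator (1 : G → ℝ≥0∞) (w * h⁻¹) * φ w ∂hm := by
    intro h
    have hmeas : Measurable (fun w : G => (Bx (4 * √x)).indicator (1 : G → ℝ≥0∞) (w * h⁻¹) * φ w) := by
      apply Measurable.mul _ hφ
      exact (measurable_one.indicator (Bx_meas _)).comp
        (continuous_id.mul continuous_const).measurable
    rw [← (hm_mul_right h).lintegral_comp hmeas, ← lintegral_indicator (Bx_meas _)]
    apply lintegral_congr
    intro g
    simp only [mul_inv_cancel_right]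
    by_cases hg : g ∈ Bx (4 * √x)
    · rw [indicator_of_mem hg, indicator_of_mem hg]; simp
    · rw [indicator_of_notMem hg, indicator_of_notMem hg]; simp
  simp_rw [e1]
  rw [lintegral_lintegral_swap]
  · rw [← lintegral_indicator (Bx_meas x)]
    apply lintegral_mono
    intro w
    by_cases hw : w ∈ Bx x
    · simp only [indicator_of_mem hw]
      have hmeas : Measurable (fun h : G => (Bx (4 * √x)).indicator (1 : G → ℝ≥0∞) (w * h⁻¹)) :=
        (measurable_one.indicator (Bx_meas _)).comp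
          (continuous_const.mul continuous_id.inv).measurable
      rw [lintegral_mul_const _ hmeas]
      have e2 : ∫⁻ h in Bx (4 * √x), (Bx (4 * √x)).indicator (1 : G → ℝ≥0∞) (w * h⁻¹) ∂hm =
          hm (Bx (4 * √x) ∩ (fun h : G => w * h⁻¹) ⁻¹' Bx (4 * √x)) := by
        have e3 : (fun h : G => (Bx (4 * √x)).indicator (1 : G → ℝ≥0∞) (w * h⁻¹)) =
            ((fun h : G => w * h⁻¹) ⁻¹' Bx (4 * √x)).indicator 1 := rfl
        rw [e3, lintegral_indicator_one (slice_meas _ _), Measure.restrict_apply (slice_meas _ _),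
          inter_comm]
      rw [e2]
      calc φ w = 1 * φ w := (one_mul _).symm
        _ ≤ _ := by gcongr; exact big_slice hx hw
    · simp only [indicator_of_notMem hw]; exact zero_le
  · apply Measurable.aemeasurable
    apply Measurable.mul
    · exact (measurable_one.indicator (Bx_meas _)).comp
        (continuous_snd.mul continuous_fst.inv).measurable
    · exact hφ.comp measurable_snd

theorem main : DomSplitStmt := by
  refine ⟨ENNReal.ofReal 32, ENNReal.ofReal_ne_top, ?_⟩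
  intro x hx φ hφ
  have hs : (1 : ℝ) ≤ √x := by
    rw [Real.one_le_sqrt]; linarith
  have hsx : √x * √x = x := Real.mul_self_sqrt (by linarith)
  have hk := key (by linarith : (1 : ℝ) ≤ x) φ hφ
  have e1 : ∫⁻ g, φ g ∂(bm x) = ENNReal.ofReal ((x - 1)⁻¹) * ∫⁻ g in Bx x, φ g ∂hm := by
    unfold bm; rw [lintegral_smul_measure, smul_eq_mul]
  have e2 : ∫⁻ h, ∫⁻ g, φ (g * h) ∂(bm (4 * √x)) ∂(bm (4 * √x)) =
      ENNReal.ofReal ((4 * √x - 1)⁻¹) * (ENNReal.ofReal ((4 * √x - 1)⁻¹) *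
        ∫⁻ h in Bx (4 * √x), ∫⁻ g in Bx (4 * √x), φ (g * h) ∂hm ∂hm) := by
    unfold bm
    rw [lintegral_smul_measure, smul_eq_mul]
    simp_rw [lintegral_smul_measure, smul_eq_mul]
    rw [lintegral_const_mul' _ _ ENNReal.ofReal_ne_top]
  rw [e1, e2]
  have h1 : (x - 1)⁻¹ ≤ 32 * (4 * √x - 1)⁻¹ * (4 * √x - 1)⁻¹ := by
    have hp : (0 : ℝ) < 4 * √x - 1 := by linarith
    rw [inv_eq_one_div, inv_eq_one_div, mul_one_div, mul_one_div, div_div,
      div_le_div_iff₀ (by linarith) (by positivity)]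
    nlinarith
  have h2 : ENNReal.ofReal ((x - 1)⁻¹) ≤ ENNReal.ofReal 32 * (ENNReal.ofReal ((4 * √x - 1)⁻¹) *
      ENNReal.ofReal ((4 * √x - 1)⁻¹)) := by
    have hp : (0 : ℝ) ≤ (4 * √x - 1)⁻¹ := inv_nonneg.mpr (by linarith)
    rw [← ENNReal.ofReal_mul hp, ← ENNReal.ofReal_mul (by norm_num)]
    apply ENNReal.ofReal_le_ofReal
    linarith
  calc ENNReal.ofReal ((x - 1)⁻¹) * ∫⁻ g in Bx x, φ g ∂hm
      ≤ (ENNReal.ofReal 32 * (ENNReal.ofReal ((4 * √x - 1)⁻¹) *
      ENNReal.ofReal ((4 * √x - 1)⁻¹))) *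
        ∫⁻ h in Bx (4 * √x), ∫⁻ g in Bx (4 * √x), φ (g * h) ∂hm ∂hm := by gcongr
    _ = _ := by ring

end Pool.Agent.W605.BA.DSP
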